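import Mathlib
import Pool.Agent.Helper46.DZ2.St

/-! Module C of the project DZ2: ring combinatorics. -/

set_option autoImplicit false

namespace Pool.Agent.Helper7.DZ2

open Pool.Agent.Helper46.DZ2

section basics

variable {L : Type} [CommRing L] {M : ℕ} (x : Lˣ)

/-- `x ^ c` with the exponent modulo `M`. -/
def X (c : ZMod M) : Lˣ := x ^ c.val

lemma pow_mod_eq (h : x ^ M = 1) (k : ℕ) : x ^ (k % M) = x ^ k := by
  conv_rhs => rw [← Nat.div_add_mod k M, pow_add, pow_mul, h, one_pow, one_mul]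

lemma X_natCast (h : x ^ M = 1) (k : ℕ) : X x (k : ZMod M) = x ^ k := by
  unfold X
  rw [ZMod.val_natCast, pow_mod_eq x h]

variable [NeZero M]

lemma X_add (h : x ^ M = 1) (a b : ZMod M) : X x (a + b) = X x a * X x b := by
  unfold X
  rw [← pow_add, ZMod.val_add, pow_mod_eq x h]

omit [NeZero M] in
lemma X_zero : X x (0 : ZMod M) = 1 := by
  unfold X
  rw [ZMod.val_zero, pow_zero]

omit [NeZero M] in
lemma X_one (h : x ^ M = 1) : X x (1 : ZMod M) = x := by
  have := X_natCast x h 1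
  rwa [Nat.cast_one, pow_one] at this

lemma X_neg (h : x ^ M = 1) (a : ZMod M) : X x (-a) = (X x a)⁻¹ := by
  rw [eq_inv_iff_mul_eq_one, ← X_add x h, neg_add_cancel, X_zero]

lemma X_pow (h : x ^ M = 1) (c : ZMod M) (k : ℕ) : (X x c) ^ k = X x ((k : ZMod M) * c) := by
  induction k with
  | zero => rw [pow_zero, Nat.cast_zero, zero_mul, X_zero]
  | succ k ih =>
    rw [pow_succ, ih, ← X_add x h]
    congr 1
    push_cast
    ring

omit [NeZero M] in
lemma X_mem {Y : Subgroup Lˣ} (hx : x ∈ Y) (c : ZMod M) : X x c ∈ Y :=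
  Y.pow_mem hx _

end basics

section choice

lemma natCard_not {M : ℕ} [NeZero M] (p : ZMod M → Prop) [DecidablePred p] :
    Nat.card {b : ZMod M // ¬ p b} = (Finset.univ.filter (fun b : ZMod M => ¬ p b)).card := by
  rw [Nat.card_eq_fintype_card, Fintype.card_subtype]

lemma choose3 {M : ℕ} [NeZero M] (p1 p2 p3 : ZMod M → Prop)
    (h1 : 5 * Nat.card {b : ZMod M // ¬ p1 b} < M)
    (h2 : 5 * Nat.card {b : ZMod M // ¬ p2 b} < M)
    (h3 : 5 * Nat.card {b : ZMod M // ¬ p3 b} < M) :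
    ∃ b, p1 b ∧ p2 b ∧ p3 b := by
  classical
  rw [natCard_not] at h1 h2 h3
  by_contra hcon
  push Not at hcon
  have hsub : (Finset.univ : Finset (ZMod M)) ⊆
      (Finset.univ.filter (fun b : ZMod M => ¬ p1 b)) ∪
      ((Finset.univ.filter (fun b : ZMod M => ¬ p2 b)) ∪
      (Finset.univ.filter (fun b : ZMod M => ¬ p3 b))) := by
    intro b _
    simp only [Finset.mem_union, Finset.mem_filter, Finset.mem_univ, true_and]
    by_cases h1' : p1 b
    · by_cases h2' : p2 b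
      · exact Or.inr (Or.inr (hcon b h1' h2'))
      · exact Or.inr (Or.inl h2')
    · exact Or.inl h1'
  have hc := Finset.card_le_card hsub
  rw [Finset.card_univ, ZMod.card] at hc
  have e1 := Finset.card_union_le (Finset.univ.filter (fun b : ZMod M => ¬ p1 b))
    ((Finset.univ.filter (fun b : ZMod M => ¬ p2 b)) ∪
      (Finset.univ.filter (fun b : ZMod M => ¬ p3 b)))
  have e2 := Finset.card_union_le (Finset.univ.filter (fun b : ZMod M => ¬ p2 b))
      (Finset.univ.filter (fun b : ZMod M => ¬ p3 b))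
  omega

lemma choose_ne {M : ℕ} [NeZero M] (hM : 1 < M) (p : ZMod M → Prop)
    (h1 : 5 * Nat.card {b : ZMod M // ¬ p b} < M) (b0 : ZMod M) :
    ∃ b, b ≠ b0 ∧ p b := by
  classical
  rw [natCard_not] at h1
  by_contra hcon
  push Not at hcon
  have hsub : (Finset.univ : Finset (ZMod M)) ⊆
      {b0} ∪ (Finset.univ.filter (fun b : ZMod M => ¬ p b)) := by
    intro b _
    simp only [Finset.mem_union, Finset.mem_filter, Finset.mem_univ, true_and,
      Finset.mem_singleton]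
    by_cases h1' : b = b0
    · exact Or.inl h1'
    · exact Or.inr (hcon b h1')
  have hc := Finset.card_le_card hsub
  rw [Finset.card_univ, ZMod.card] at hc
  have e1 := Finset.card_union_le {b0} (Finset.univ.filter (fun b : ZMod M => ¬ p b))
  rw [Finset.card_singleton] at e1
  omega

lemma card_nonunit {M : ℕ} [NeZero M] :
    Nat.card {b : ZMod M // ¬ IsUnit b} = M - M.totient := by
  classical
  rw [natCard_not]
  have h1 : (Finset.univ.filter (fun b : ZMod M => IsUnit b)).card = M.totient := by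
    have h3 : (Finset.univ.filter (fun b : ZMod M => IsUnit b)) =
        (Finset.univ : Finset (ZMod M)ˣ).map ⟨Units.val, Units.val_injective⟩ := by
      ext b
      simp only [Finset.mem_filter, Finset.mem_univ, true_and, Finset.mem_map,
        Function.Embedding.coeFn_mk]
      exact Iff.rfl
    rw [h3, Finset.card_map, Finset.card_univ, ZMod.card_units_eq_totient]
  have h2 := Finset.card_filter_add_card_filter_not (s := (Finset.univ : Finset (ZMod M)))
    (fun b : ZMod M => IsUnit b)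
  rw [Finset.card_univ, ZMod.card] at h2
  omega

end choice

section main

variable {L : Type} [CommRing L] {n M l : ℕ} {x : Lˣ}

/-- The closure rule. -/
def CR (Y : Subgroup Lˣ) : Prop :=
  ∀ d z e1 e2 e3 : Lˣ, d ∈ Y → z ∈ Y → e1 ∈ Y → e2 ∈ Y →
    (e1 : L) = 1 + (z : L) → (e2 : L) = 1 + (d : L) * (z : L) → (e3 : L) = 1 + (d : L) →
    AddSubgroup.closure (Set.range (fun i : ℕ => (z : L) ^ i)) = ⊤ → e3 ∈ Y

/-- `P` is good. -/
def Good (M : ℕ) (x : Lˣ) (Y : Subgroup Lˣ) (P : Lˣ) : Prop :=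
  P ∈ Y ∧ ∃ b : ZMod M, ∃ u : Lˣ, u ∈ Y ∧ (u : L) = 1 + (X x b : L) * (P : L)

variable [NeZero M]

lemma span_unit (R : Rg L n M l x) (c : ZMod M) (hc : IsUnit c) :
    AddSubgroup.closure (Set.range (fun i : ℕ => ((X x c : Lˣ) : L) ^ i)) = ⊤ := by
  rw [eq_top_iff, ← R.span]
  apply AddSubgroup.closure_mono
  rintro _ ⟨i, rfl⟩
  obtain ⟨u, rfl⟩ := hc
  refine ⟨((i : ZMod M) * ((u⁻¹ : (ZMod M)ˣ) : ZMod M)).val, ?_⟩
  have h1 : (X x (u : ZMod M)) ^ ((i : ZMod M) * ((u⁻¹ : (ZMod M)ˣ) : ZMod M)).val = x ^ i := by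
    rw [X_pow x R.xM, ZMod.natCast_zmod_val, mul_assoc, Units.inv_mul, mul_one,
      X_natCast x R.xM]
  have h2 := congrArg (fun t : Lˣ => (t : L)) h1
  simpa using h2

lemma bad' (R : Rg L n M l x) (A B C D : L) (h : A * C + B * D = 1) :
    5 * Nat.card {b : ZMod M // ¬ IsUnit (A + (X x b : L) * B)} < M := by
  have h1 := R.bad A B C D h
  have h2 : Nat.card {b : Fin M // ¬ IsUnit (A + (x : L) ^ (b : ℕ) * B)} =
      Nat.card {b : ZMod M // ¬ IsUnit (A + (X x b : L) * B)} := by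
    obtain ⟨m, rfl⟩ : ∃ m, M = m + 1 := ⟨M - 1, by have := R.M1; omega⟩
    unfold X
    simp only [Units.val_pow_eq_pow_val]
    rfl
  rwa [h2] at h1

lemma unit' (R : Rg L n M l x) (c : ZMod M) (hc : c ≠ 0) : IsUnit (1 + (X x c : L)) := by
  have h1 := R.unit c.val (by
    intro hd
    have h2 := ZMod.val_lt c
    have h3 := Nat.eq_zero_of_dvd_of_lt hd h2
    exact hc ((ZMod.val_eq_zero c).mp h3))
  unfold X
  rw [Units.val_pow_eq_pow_val]
  exact h1

omit [NeZero M] in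
lemma ne_zero_of_unit (R : Rg L n M l x) (c : ZMod M) (hc : IsUnit c) : c ≠ 0 := by
  rintro rfl
  rw [isUnit_zero_iff] at hc
  have := R.M1
  have : Fact (1 < M) := ⟨this⟩
  exact zero_ne_one hc

omit [NeZero M] in
lemma one_add_x (R : Rg L n M l x) : ((x ^ l : Lˣ) : L) = 1 + (x : L) := by
  rw [Units.val_pow_eq_pow_val, R.xl]

/-- (7) -/
lemma seven (R : Rg L n M l x) {Y : Subgroup Lˣ} (hx : x ∈ Y) (hC : CR Y) :
    ∀ c : ℕ, 0 < c → c < M → ∀ u : Lˣ, (u : L) = 1 + (x : L) ^ c → u ∈ Y := by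
  intro c
  induction c with
  | zero => intro h; exact absurd h (lt_irrefl _)
  | succ c ih =>
    intro _ hcM u hu
    have hxl : x ^ l ∈ Y := Y.pow_mem hx l
    rcases Nat.eq_zero_or_pos c with hc | hc
    · subst hc
      have : u = x ^ l := by
        apply Units.ext
        rw [hu, one_add_x R, zero_add, pow_one]
      rw [this]
      exact hxl
    · obtain ⟨w, hw⟩ := R.unit c (fun hd => by
        have := Nat.le_of_dvd hc hd
        omega)
      have hwY := ih hc (by omega) w hw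
      refine hC (x ^ (c + 1)) x⁻¹ (x⁻¹ * x ^ l) w u (Y.pow_mem hx _) (Y.inv_mem hx)
        (Y.mul_mem (Y.inv_mem hx) hxl) hwY ?_ ?_ ?_ ?_
      · rw [Units.val_mul, one_add_x R, mul_add, mul_one, Units.inv_mul, add_comm]
      · rw [hw, Units.val_pow_eq_pow_val, pow_succ, mul_assoc, Units.mul_inv, mul_one]
      · rw [hu, Units.val_pow_eq_pow_val]
      · have h1 := span_unit R (-1 : ZMod M) (isUnit_one.neg)
        rw [X_neg x R.xM, X_one x R.xM] at h1
        exact h1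

lemma seven' (R : Rg L n M l x) {Y : Subgroup Lˣ} (hx : x ∈ Y) (hC : CR Y) (c : ZMod M)
    (hc : c ≠ 0) (u : Lˣ) (hu : (u : L) = 1 + (X x c : L)) : u ∈ Y := by
  refine seven R hx hC c.val ?_ (ZMod.val_lt c) u ?_
  · exact Nat.pos_of_ne_zero (fun h => hc ((ZMod.val_eq_zero c).mp h))
  · rw [hu]
    unfold X
    rw [Units.val_pow_eq_pow_val]

/-- (8), coprime case -/
lemma eight_a (R : Rg L n M l x) {Y : Subgroup Lˣ} (hx : x ∈ Y) (hC : CR Y) (P : Lˣ)
    (hP : P ∈ Y) (b c : ZMod M) (hbc : IsUnit (b - c)) (u v : Lˣ) (huY : u ∈ Y)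
    (hu : (u : L) = 1 + (X x b : L) * P) (hv : (v : L) = 1 + (X x c : L) * P) : v ∈ Y := by
  have hne := ne_zero_of_unit R _ hbc
  obtain ⟨w, hw⟩ := unit' R (b - c) hne
  have hwY := seven' R hx hC _ hne w hw
  refine hC (X x c * P) (X x (b - c)) w u v (Y.mul_mem (X_mem x hx c) hP) (X_mem x hx _)
    hwY huY hw ?_ ?_ (span_unit R _ hbc)
  · rw [hu]
    have h1 : X x b = X x c * X x (b - c) := by
      rw [← X_add x R.xM]
      congr 1
      ring
    rw [h1]
    push_cast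
    ring
  · rw [hv, Units.val_mul]

lemma isUnit_one_add_exists (R : Rg L n M l x) (P : Lˣ) (b c : ZMod M) :
    ∃ c1 : ZMod M, IsUnit (b - c1) ∧ IsUnit (c1 - c) ∧ IsUnit (1 + (X x c1 : L) * (P : L)) := by
  have hphi := R.phi
  have hcard := card_nonunit (M := M)
  refine choose3 (fun c1 => IsUnit (b - c1)) (fun c1 => IsUnit (c1 - c))
    (fun c1 => IsUnit (1 + (X x c1 : L) * (P : L))) ?_ ?_ ?_
  · have h1 : Nat.card {c1 : ZMod M // ¬ IsUnit (b - c1)} =
        Nat.card {c1 : ZMod M // ¬ IsUnit c1} := by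
      refine Nat.card_congr ((Equiv.subLeft b).subtypeEquiv ?_)
      intro a
      rfl
    rw [h1, hcard]
    omega
  · have h1 : Nat.card {c1 : ZMod M // ¬ IsUnit (c1 - c)} =
        Nat.card {c1 : ZMod M // ¬ IsUnit c1} := by
      refine Nat.card_congr ((Equiv.subRight c).subtypeEquiv ?_)
      intro a
      rfl
    rw [h1, hcard]
    omega
  · exact bad' R 1 P 1 0 (by ring)

/-- (8) -/
lemma eight (R : Rg L n M l x) {Y : Subgroup Lˣ} (hx : x ∈ Y) (hC : CR Y) (P : Lˣ)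
    (hP : Good M x Y P) (c : ZMod M) (v : Lˣ) (hv : (v : L) = 1 + (X x c : L) * P) : v ∈ Y := by
  obtain ⟨hPY, b, u, huY, hu⟩ := hP
  obtain ⟨c1, h1, h2, w, hw⟩ := isUnit_one_add_exists R P b c
  have hwY := eight_a R hx hC P hPY b c1 h1 u w huY hu hw
  exact eight_a R hx hC P hPY c1 c h2 w v hwY hw hv

/-- (8), shifted -/
lemma eight' (R : Rg L n M l x) {Y : Subgroup Lˣ} (hx : x ∈ Y) (hC : CR Y) (P : Lˣ)
    (hP : Good M x Y P) (a : ZMod M) (Q : Lˣ) (hQ : (Q : L) = (X x a : L) + P) : Q ∈ Y := by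
  have h1 : (X x a)⁻¹ * Q ∈ Y := by
    refine eight R hx hC P hP (-a) _ ?_
    rw [Units.val_mul, hQ, mul_add, Units.inv_mul, X_neg x R.xM]
  have h2 := Y.mul_mem (X_mem x hx a) h1
  rwa [mul_inv_cancel_left] at h2

/-- the claim in (9) -/
lemma nine_claim (R : Rg L n M l x) {Y : Subgroup Lˣ} (hx : x ∈ Y) (hC : CR Y) (P : Lˣ)
    (hP : Good M x Y P) (m : ZMod M) (hm : m ≠ 0) (c : ZMod M) (v : Lˣ)
    (hv : (v : L) = 1 + (X x m : L) + (X x c : L) * P) : v ∈ Y := by
  obtain ⟨N, hN⟩ := unit' R m hm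
  have hNY := seven' R hx hC m hm N hN
  have hxM := R.xM
  obtain ⟨d, ⟨r, hr⟩, ⟨t, ht⟩, ⟨w, hw⟩⟩ := choose3
    (fun d => IsUnit (1 + (X x d : L) * (P : L)))
    (fun d => IsUnit (((x ^ l : Lˣ) : L) + (X x d : L) * (P : L)))
    (fun d => IsUnit ((N : L) + (X x d : L) * (P : L)))
    (bad' R 1 P 1 0 (by ring))
    (bad' R _ P (((x ^ l)⁻¹ : Lˣ) : L) 0 (by rw [mul_zero, add_zero, Units.mul_inv]))
    (bad' R _ P ((N⁻¹ : Lˣ) : L) 0 (by rw [mul_zero, add_zero, Units.mul_inv]))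
  have hrY : r ∈ Y := eight R hx hC P hP d r hr
  have htY : t ∈ Y := by
    have h1 : (x ^ l)⁻¹ * t ∈ Y := by
      refine eight R hx hC P hP (-(l : ZMod M) + d) _ ?_
      rw [Units.val_mul, ht, mul_add, Units.inv_mul, X_add x hxM, X_neg x hxM,
        X_natCast x hxM, Units.val_mul, mul_assoc]
    have h2 := Y.mul_mem (Y.pow_mem hx l) h1
    rwa [mul_inv_cancel_left] at h2
  have htr : (t : L) = (x : L) + (r : L) := by
    rw [ht, hr, one_add_x R]
    ring
  have hrG : Good M x Y r := by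
    refine ⟨hrY, -1, x⁻¹ * t, Y.mul_mem (Y.inv_mem hx) htY, ?_⟩
    rw [Units.val_mul, htr, mul_add, Units.inv_mul, X_neg x hxM, X_one x hxM]
  have hwY : w ∈ Y := by
    refine eight' R hx hC r hrG m w ?_
    rw [hw, hN, hr]
    ring
  have hPG : Good M x Y (P * N⁻¹) := by
    refine ⟨Y.mul_mem hP.1 (Y.inv_mem hNY), d, w * N⁻¹, Y.mul_mem hwY (Y.inv_mem hNY), ?_⟩
    rw [Units.val_mul, hw, add_mul, Units.mul_inv, Units.val_mul, mul_assoc]
  have h3 : v * N⁻¹ ∈ Y := by
    refine eight R hx hC _ hPG c _ ?_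
    rw [Units.val_mul, hv, ← hN, add_mul, Units.mul_inv, Units.val_mul, mul_assoc]
  have h4 := Y.mul_mem h3 hNY
  rwa [inv_mul_cancel_right] at h4

/-- (9) -/
lemma nine (R : Rg L n M l x) {Y : Subgroup Lˣ} (hx : x ∈ Y) (hC : CR Y) (P : Lˣ)
    (hP : Good M x Y P) (a : ZMod M) (Q : Lˣ) (hQ : (Q : L) = (X x a : L) + P) :
    Good M x Y Q := by
  refine ⟨eight' R hx hC P hP a Q hQ, ?_⟩
  obtain ⟨b, hb, u, hu⟩ := choose_ne R.M1 (fun b => IsUnit (1 + (X x b : L) * (Q : L)))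
    (bad' R 1 Q 1 0 (by ring)) (-a)
  refine ⟨b, u, ?_, hu⟩
  refine nine_claim R hx hC P hP (b + a) ?_ b u ?_
  · intro h
    exact hb (eq_neg_of_add_eq_zero_left h)
  · rw [hu, hQ, X_add x R.xM]
    push_cast
    ring

/-- the property in (10) -/
def Q10 (M : ℕ) (x : Lˣ) (Y : Subgroup Lˣ) (A : L) : Prop :=
  ∀ (b : ZMod M) (V : Lˣ), (V : L) = A + (X x b : L) → Good M x Y V

lemma q10_zero (R : Rg L n M l x) {Y : Subgroup Lˣ} (hx : x ∈ Y) : Q10 M x Y (0 : L) := by
  intro b V hV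
  have hV' : V = X x b := by
    apply Units.ext
    rw [hV, zero_add]
  subst hV'
  refine ⟨X_mem x hx b, 1 - b, x ^ l, Y.pow_mem hx l, ?_⟩
  rw [one_add_x R, ← Units.val_mul, ← X_add x R.xM, sub_add_cancel, X_one x R.xM]

lemma q10_step (R : Rg L n M l x) {Y : Subgroup Lˣ} (hx : x ∈ Y) (hC : CR Y) (A : L)
    (hA : Q10 M x Y A) (d : ZMod M) : Q10 M x Y ((X x d : L) + A) := by
  intro b V hV
  obtain ⟨b', ⟨p, hp⟩, ⟨q, hq⟩, ⟨r, hr⟩⟩ := choose3
    (fun c => IsUnit (A + (X x c : L) * 1))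
    (fun c => IsUnit ((A + (X x b : L)) + (X x c : L) * 1))
    (fun c => IsUnit ((V : L) + (X x c : L) * 1))
    (bad' R A 1 0 1 (by ring))
    (bad' R _ 1 0 1 (by ring))
    (bad' R _ 1 0 1 (by ring))
  rw [mul_one] at hp hq hr
  have h1 : Good M x Y p := hA b' p hp
  have h2 : Good M x Y q := by
    refine nine R hx hC p h1 b q ?_
    rw [hq, hp]
    ring
  have h3 : Good M x Y r := by
    refine nine R hx hC q h2 d r ?_
    rw [hr, hV, hq]
    ring
  refine nine R hx hC r h3 b' V ?_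
  have h4 := R.two ((X x b' : Lˣ) : L)
  rw [hr]
  linear_combination (-1 : L) * h4

lemma q10_all (R : Rg L n M l x) {Y : Subgroup Lˣ} (hx : x ∈ Y) (hC : CR Y) (A : L) :
    Q10 M x Y A := by
  have hA : A ∈ AddSubgroup.closure (Set.range (fun i : ℕ => (x : L) ^ i)) := by
    rw [R.span]
    exact AddSubgroup.mem_top A
  have key : ∀ B : L, Q10 M x Y B → Q10 M x Y (A + B) := by
    refine AddSubgroup.closure_induction
      (p := fun A _ => ∀ B : L, Q10 M x Y B → Q10 M x Y (A + B)) ?_ ?_ ?_ ?_ hA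
    · rintro _ ⟨i, rfl⟩ B hB
      have h1 := q10_step R hx hC B hB (i : ZMod M)
      rw [X_natCast x R.xM, Units.val_pow_eq_pow_val] at h1
      exact h1
    · intro B hB
      rwa [zero_add]
    · intro a b _ _ ha hb B hB
      rw [add_assoc]
      exact ha _ (hb _ hB)
    · intro a _ ha B hB
      have h1 : -a = a := neg_eq_of_add_eq_zero_left (R.two a)
      rw [h1]
      exact ha B hB
  have h0 := key 0 (q10_zero R hx)
  rwa [add_zero] at h0

end main

theorem hC : StC := by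
  intro L _ n M l x R Y hx hC
  have : NeZero M := ⟨by have := R.M1; omega⟩
  rw [eq_top_iff]
  intro u _
  have h1 := q10_all R hx hC ((u : L) + 1) 0 u (by
    rw [X_zero, Units.val_one, add_assoc, R.two 1, add_zero])
  exact h1.1

end Pool.Agent.Helper7.DZ2
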